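import Mathlib

namespace Pool.Agent.Results.MP_5ee7f3_co.Full
open SimpleGraph Finset

/-- `G` contains an immersion of `K_d`. -/
def Imm {V : Type} (G : SimpleGraph V) (d : ℕ) : Prop := ∃ c : Fin d → V, Function.Injective c ∧
  ∃ P : ∀ i j, G.Walk (c i) (c j), (∀ i j, i < j → (P i j).IsPath) ∧
    ∀ i j k l, i < j → k < l → (i, j) ≠ (k, l) → (P i j).edges.Disjoint (P k l).edges

def H : SimpleGraph (Fin 12) := ⟨fun u v => u.1 % 4 ≠ v.1 % 4, ⟨fun _ _ h => h.symm⟩, ⟨fun _ h => h rfl⟩⟩
instance : DecidableRel H.Adj := fun u v => inferInstanceAs (Decidable (u.1 % 4 ≠ v.1 % 4))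

lemma core (c : Fin 10 → Fin 12) (hc : Function.Injective c) (W : ∀ i j, H.Walk (c i) (c j))
    (hp : ∀ i j, i ≠ j → (W i j).IsPath) (hd : ∀ i j k l e, i ≠ j → k ≠ l → e ∈ (W i j).edges →
      e ∈ (W k l).edges → i = k ∧ j = l ∨ i = l ∧ j = k) : False := by
  have ex : ∀ i j, ∃ x, i ≠ j → ∃ h : H.Adj (c i) x, ∃ q, W i j = .cons h q := fun i j => by
    by_cases e : i = j
    · exact ⟨0, fun h => absurd e h⟩
    · obtain ⟨x, h⟩ := Walk.exists_eq_cons_of_ne (hc.ne e) (W i j)
      exact ⟨x, fun _ => h⟩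
  choose s hs using ex
  have m : ∀ i j, i ≠ j → s(c i, s i j) ∈ (W i j).edges := fun i j n => by
    obtain ⟨h, q, e⟩ := hs i j n
    simp [e]
  have inj : ∀ i j k, i ≠ j → i ≠ k → s i j = s i k → j = k := fun i j k a b e => by
    have := hd i j i k _ a b (m i j a) (e ▸ m i k b)
    omega
  have a : ∀ i x, H.Adj (c i) x → ∃ j, i ≠ j ∧ s i j = x := fun i x h => by
    obtain ⟨j, u, v⟩ := surj_on_of_inj_on_of_card_le (s := univ.erase i)
      (t := H.neighborFinset (c i)) (fun j _ => s i j)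
      (fun j u => by simpa using (hs i j (ne_of_mem_erase u).symm).1)
      (fun j k u v => inj i j k (ne_of_mem_erase u).symm (ne_of_mem_erase v).symm)
      (by rw [(by decide : ∀ v, (H.neighborFinset v).card = 9)]; simp) x (by simpa using h)
    exact ⟨j, (ne_of_mem_erase u).symm, v.symm⟩
  have b : ∀ i j k x, i ≠ j → s(c k, x) ∈ (W i j).edges → k = i ∨ k = j ∧ s j i = x := by
    intro i j k x n h
    obtain ⟨l, u, rfl⟩ := a k x ((W i j).adj_of_mem_edges h)
    rcases hd i j k l _ n u h (m k l u) with ⟨rfl, rfl⟩ | ⟨rfl, rfl⟩ <;> simp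
  have d : ∀ i j, i ≠ j → ¬ H.Adj (c i) (c j) → s i j ∉ univ.image c := fun i j n h u => by
    obtain ⟨k, -, e⟩ := mem_image.1 u
    have v := (hs i j n).1
    rcases b i j k (c i) n (by rw [e, Sym2.eq_swap]; exact m i j n) with rfl | ⟨rfl, -⟩
    · exact v.ne e
    · exact h (e ▸ v)
  obtain ⟨x, y, -, xy⟩ : ∃ x y, x ≠ y ∧ (univ.image c)ᶜ = {x, y} := card_eq_two.1 (by
    rw [card_compl, card_image_of_injective _ hc]; rfl)
  have o : ∀ v, v ∉ univ.image c ↔ v = x ∨ v = y := fun v => by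
    rw [← mem_compl, xy]; simp
  have f : ∀ i j, i ≠ j → ¬ H.Adj (c i) (c j) → s(x, y) ∉ (W i j).edges → s j i = s i j := by
    intro i j n h z
    obtain ⟨u, q, e⟩ := hs i j n
    obtain ⟨w, v, r, rfl⟩ := Walk.exists_eq_cons_of_ne (fun t : s i j = c j => h (t ▸ u)) q
    have t : s(w, s i j) ∈ (W i j).edges := by simp [e, Sym2.eq_swap]
    by_cases g : w ∈ univ.image c
    · obtain ⟨k, -, rfl⟩ := mem_image.1 g
      rcases b i j k _ n t with rfl | ⟨-, t⟩
      · have := hp k j n
        simp [e] at this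
      · exact t
    · have := v.ne
      rcases (o _).1 g with rfl | rfl <;> rcases (o _).1 (d i j n h) with g | g <;> rw [g] at t this
      · exact absurd rfl this
      · exact absurd t z
      · exact absurd (Sym2.eq_swap ▸ t) z
      · exact absurd rfl this
  have g : ∀ r < 4, x.1 % 4 ≠ r → y.1 % 4 ≠ r → ∃ i j, i ≠ j ∧ (c i).1 % 4 = r ∧ (c j).1 % 4 = r ∧
      s(x, y) ∈ (W i j).edges := by
    intro r hr u v
    have t : ∀ w : Fin 12, w.1 % 4 = r → ∃ i, c i = w := fun w h => by
      by_contra z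
      rcases (o w).1 (by simpa using z) with rfl | rfl <;> contradiction
    obtain ⟨i, hi⟩ := t ⟨r, by omega⟩ (by simp; omega)
    obtain ⟨j, hj⟩ := t ⟨r + 4, by omega⟩ (by simp; omega)
    obtain ⟨k, hk⟩ := t ⟨r + 8, by omega⟩ (by simp; omega)
    have n1 : i ≠ j := fun e => by simp [e, hj] at hi
    have n2 : i ≠ k := fun e => by simp [e, hk] at hi
    have n3 : j ≠ k := fun e => by simp [e, hk] at hj
    have e1 : (c i).1 % 4 = r := by simp [hi]; omega
    have e2 : (c j).1 % 4 = r := by simp [hj]; omega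
    have e3 : (c k).1 % 4 = r := by simp [hk]; omega
    by_contra z
    push Not at z
    have a1 : ¬ H.Adj (c i) (c j) := fun h => h (e1.trans e2.symm)
    have a2 : ¬ H.Adj (c i) (c k) := fun h => h (e1.trans e3.symm)
    have a3 : ¬ H.Adj (c j) (c k) := fun h => h (e2.trans e3.symm)
    have b1 := mt (inj i j k n1 n2) n3
    have b2 := mt (inj j i k n1.symm n3) n2
    have b3 := mt (inj k i j n2.symm n3.symm) n1
    rw [f i j n1 a1 (z i j n1 e1 e2)] at b2
    rw [f i k n2 a2 (z i k n2 e1 e3), f j k n3 a3 (z j k n3 e2 e3)] at b3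
    have := (o _).1 (d i j n1 a1)
    have := (o _).1 (d i k n2 a2)
    have := (o _).1 (d j k n3 a3)
    omega
  obtain ⟨r, r1, t, t1, n, u, v, w, z⟩ := (by decide : ∀ x y : Fin 12, ∃ r < 4, ∃ t < 4, r ≠ t ∧
    x.1 % 4 ≠ r ∧ y.1 % 4 ≠ r ∧ x.1 % 4 ≠ t ∧ y.1 % 4 ≠ t) x y
  obtain ⟨i, j, a1, a2, a3, a4⟩ := g r r1 u v
  obtain ⟨k, l, b1, b2, b3, b4⟩ := g t t1 w z
  rcases hd i j k l _ a1 b1 a4 b4 with ⟨rfl, -⟩ | ⟨rfl, -⟩ <;> omega

abbrev V := Fin 9 × Option (Fin 12)

def A : V → V → Bool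
  | (i, none), (j, none) => i ≠ j
  | (i, none), (j, some v) => i = j ∧ v = 0
  | (i, some u), (j, none) => i = j ∧ u = 0
  | (i, some u), (j, some v) => i = j ∧ u.1 % 4 ≠ v.1 % 4

def G : SimpleGraph V := ⟨fun u v => A u v, ⟨by decide +kernel⟩, ⟨by decide +kernel⟩⟩
instance : DecidableRel G.Adj := fun u v => inferInstanceAs (Decidable (A u v = true))

def S (i : Fin 9) (x : V) : Prop := ∃ u, x = (i, some u)

lemma br {i x y} (h : G.Adj x y) (a : S i x) (b : ¬ S i y) : s(x, y) = s((i, some 0), (i, none)) := by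
  obtain ⟨u, rfl⟩ := a
  obtain ⟨j, _ | v⟩ := y <;> simp [G, A, S] at h b ⊢
  · simp [h]
  · exact absurd h.1.symm b

lemma cross {i x y} (p : G.Walk x y) (h : ¬ (S i x ↔ S i y)) :
    s((i, some 0), (i, none)) ∈ p.edges := by
  induction p with
  | nil => simp at h
  | @cons x z y e p ih =>
    by_cases a : S i x <;> by_cases b : S i z
    · exact List.mem_cons_of_mem _ (ih (by tauto))
    · simp [br e a b]
    · simp [Sym2.eq_swap ▸ br e.symm b a]
    · exact List.mem_cons_of_mem _ (ih (by tauto))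

lemma tr {i x y v} (p : G.Walk x y) (h : p.IsPath) (b : y = (i, some v)) : ∀ u, x = (i, some u) →
    ∃ q : H.Walk u v, p.edges = q.edges.map (Sym2.map fun u => (i, some u)) ∧
      p.support = q.support.map fun u => (i, some u) := by
  induction p with
  | nil => rintro u rfl; obtain rfl : u = v := by simpa using b
           exact ⟨.nil, rfl, rfl⟩
  | @cons x z y e p ih =>
    rintro u rfl
    by_cases a : S i z
    · obtain ⟨w, rfl⟩ := a
      obtain ⟨q, c, d⟩ := ih h.of_cons b w rfl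
      exact ⟨.cons (by simpa [G, A, H] using e) q, by simp [c], by simp [d]⟩
    · have := h.isTrail.edges_nodup
      rw [Walk.edges_cons, br e ⟨u, rfl⟩ a] at this
      exact absurd (cross p fun t => a (t.2 ⟨v, b⟩)) (List.nodup_cons.1 this).1

theorem result : ∃ (d : ℕ) (V : Type) (_ : Fintype V) (G : SimpleGraph V) (_ : DecidableRel G.Adj),
    G.minDegree + 1 = d ∧ G.chromaticNumber + 1 = d ∧ ¬ Imm G d := by
  refine ⟨10, V, inferInstance, G, inferInstance, by decide +kernel, ?_, ?_⟩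
  · have a : G.Colorable 9 := ⟨Coloring.mk (fun x => x.2.elim x.1 fun u => x.1 + 1 + Fin.ofNat 9 (u.1 % 4))
      (by decide +kernel)⟩
    rw [le_antisymm a.chromaticNumber_le (le_chromaticNumber_of_pairwise_adj (ι := Fin 9) (by simp)
      (fun i => (i, none)) fun i j h => by simpa [G, A] using h)]
    rfl
  rintro ⟨c, hc, P, hp, hd⟩
  let W : ∀ i j, G.Walk (c i) (c j) := fun i j => if i < j then P i j else (P j i).reverse
  have w1 : ∀ i j, i ≠ j → (W i j).IsPath := fun i j n => by
    simp only [W]; split_ifs with h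
    · exact hp i j h
    · exact (hp j i (by omega)).reverse
  have w2 : ∀ i j k l e, i ≠ j → k ≠ l → e ∈ (W i j).edges → e ∈ (W k l).edges →
      i = k ∧ j = l ∨ i = l ∧ j = k := by
    intro i j k l e a b u v
    by_contra z
    simp only [W] at u v
    split_ifs at u v <;> (try simp only [Walk.edges_reverse, List.mem_reverse] at u v) <;>
      exact hd _ _ _ _ (by omega) (by omega) (by simp only [ne_eq, Prod.mk.injEq]; omega) u v
  obtain ⟨a, i, ha⟩ : ∃ a i, S i (c a) := by
    by_contra z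
    have := Fintype.card_le_of_injective (fun a => (c a).1) fun a b e => hc (Prod.ext e (by
      rcases h : (c a).2 with _ | u
      · rcases h' : (c b).2 with _ | u
        · rfl
        · exact absurd ⟨b, _, u, Prod.ext rfl h'⟩ z
      · exact absurd ⟨a, _, u, Prod.ext rfl h⟩ z))
    simp at this
  have all : ∀ b, S i (c b) := fun b => by
    by_contra hb
    have n : a ≠ b := fun e => hb (e ▸ ha)
    obtain ⟨e, n1, n2⟩ := (by decide : ∀ a b : Fin 10, ∃ e, e ≠ a ∧ e ≠ b) a b
    have u := cross (i := i) (W a b) (by tauto)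
    by_cases he : S i (c e)
    · have := w2 _ _ _ _ _ n n2 u (cross (W e b) (by tauto)); omega
    · have := w2 _ _ _ _ _ n n1.symm u (cross (W a e) (by tauto)); omega
  choose u hu using all
  have : ∀ k l, ∃ q : H.Walk (u k) (u l), k ≠ l → (W k l).edges = q.edges.map (Sym2.map fun u =>
      (i, some u)) ∧ (W k l).support = q.support.map fun u => (i, some u) := fun k l => by
    by_cases e : k = l
    · exact ⟨e ▸ .nil, fun h => absurd e h⟩
    · exact (tr _ (w1 k l e) (hu l) _ (hu k)).imp fun q h _ => h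
  choose q hq using this
  refine core u (fun k l e => hc (by rw [hu, hu, e])) q (fun k l n => ?_) fun i j k l e a b x y =>
    w2 i j k l _ a b ((hq i j a).1 ▸ List.mem_map_of_mem x) ((hq k l b).1 ▸ List.mem_map_of_mem y)
  exact .mk' (List.Nodup.of_map _ ((hq k l n).2 ▸ (w1 k l n).support_nodup))

end Pool.Agent.Results.MP_5ee7f3_co.Full
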